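import Pool.Agent.V8H33.GJ.Defs

/-!
# Stacking a facet
-/

set_option autoImplicit false

open Filter Topology

namespace Pool.Agent.V8H63.GJ

open Pool.Agent.V8H33.GJ

theorem face_max {ι : Type*} {d : ℕ} {p : ι → E d} {L A : Finset ι} (hL : L.Nonempty)
    (hA : Face p L A) : ∃ (l : E d →L[ℝ] ℝ) (m : ℝ), (∀ j ∈ L, l (p j) ≤ m) ∧
      (∀ i, i ∈ A ↔ (i ∈ L ∧ l (p i) = m)) ∧ A.Nonempty := by
  obtain ⟨l, hl⟩ := hA
  obtain ⟨a, haL, ha⟩ := L.exists_max_image (fun i => l (p i)) hL
  refine ⟨l, l (p a), ha, fun i => ?_, ⟨a, (hl a).2 ⟨haL, ha⟩⟩⟩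
  rw [hl i]
  constructor
  · rintro ⟨h1, h2⟩
    exact ⟨h1, le_antisymm (ha i h1) (h2 a haL)⟩
  · rintro ⟨h1, h2⟩
    exact ⟨h1, fun j hj => by rw [h2]; exact ha j hj⟩

theorem face_of {ι : Type*} {d : ℕ} {p : ι → E d} {L A : Finset ι} (l : E d →L[ℝ] ℝ) (m : ℝ)
    (h1 : ∀ j ∈ L, l (p j) ≤ m) (h2 : ∀ i, i ∈ A ↔ (i ∈ L ∧ l (p i) = m)) (h3 : A.Nonempty) :
    Face p L A := by
  refine ⟨l, fun i => ?_⟩
  rw [h2 i]
  constructor
  · rintro ⟨h4, h5⟩
    exact ⟨h4, fun j hj => by rw [h5]; exact h1 j hj⟩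
  · rintro ⟨h4, h5⟩
    obtain ⟨a, ha⟩ := h3
    obtain ⟨haL, ham⟩ := (h2 a).1 ha
    refine ⟨h4, le_antisymm (h1 i h4) ?_⟩
    rw [← ham]
    exact h5 a haL

theorem small (a c : ℝ) (ha : 0 < a) : ∀ᶠ ε in 𝓝[>] (0 : ℝ), 0 < a + ε * c := by
  have h : Tendsto (fun ε : ℝ => a + ε * c) (𝓝 0) (𝓝 (a + 0 * c)) := by
    apply Tendsto.const_add
    exact (tendsto_id).mul_const c
  rw [zero_mul, add_zero] at h
  exact (h.mono_left nhdsWithin_le_nhds).eventually (lt_mem_nhds ha)

section basis

variable {ι : Type} [DecidableEq ι] {d : ℕ} {p : ι → E d} {F : Finset ι} (hFd : F.card = d)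
  (hF : AffineIndependent ℝ (fun i : F => p i)) (lF : E d →L[ℝ] ℝ) (m : ℝ)
  (hm : ∀ u ∈ F, lF (p u) = m) (n : E d) (hn : lF n = 1)

include hFd hF hm hn in
theorem exists_basis : ∃ B : Module.Basis (Option F) ℝ (E d × ℝ),
    B none = (n, 0) ∧ ∀ u : F, B (some u) = (p u, 1) := by
  let v : Option F → E d × ℝ := fun o => o.elim (n, 0) (fun u => (p u, 1))
  have hli : LinearIndependent ℝ v := by
    rw [Fintype.linearIndependent_iff]
    intro g hg
    rw [Fintype.sum_option] at hg
    have h1 : g none • n + ∑ u : F, g (some u) • p u = 0 := by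
      have := congrArg Prod.fst hg
      simpa [v, Prod.fst_sum] using this
    have h2 : ∑ u : F, g (some u) = 0 := by
      have := congrArg Prod.snd hg
      simpa [v, Prod.snd_sum] using this
    have h3 : g none = 0 := by
      have := congrArg lF h1
      rw [map_add, map_smul, map_sum, hn, map_zero] at this
      have e : ∑ u : F, lF (g (some u) • p u) = ∑ u : F, g (some u) * m := by
        refine Finset.sum_congr rfl fun u _ => ?_
        rw [map_smul, hm u u.2, smul_eq_mul]
      rw [e, ← Finset.sum_mul, h2, zero_mul, add_zero, smul_eq_mul, mul_one] at this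
      exact this
    rw [h3, zero_smul, zero_add] at h1
    have h4 := (affineIndependent_iff.1 hF) Finset.univ (fun u => g (some u)) h2 h1
    intro o
    cases o with
    | none => exact h3
    | some u => exact h4 u (Finset.mem_univ u)
  have hcard : Fintype.card (Option F) = Module.finrank ℝ (E d × ℝ) := by
    rw [Fintype.card_option, Fintype.card_coe, hFd, Module.finrank_prod, finrank_euclideanSpace,
      Fintype.card_fin, Module.finrank_self]
  refine ⟨basisOfLinearIndependentOfCardEqFinrank hli hcard, ?_, ?_⟩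
  · rw [coe_basisOfLinearIndependentOfCardEqFinrank]; rfl
  · intro u
    rw [coe_basisOfLinearIndependentOfCardEqFinrank]; rfl

include hFd hF hm hn in
theorem coords : ∃ lam : ι → E d → ℝ, (∀ y, ∑ u ∈ F, lam u y = 1) ∧
    ∀ y, y = ∑ u ∈ F, lam u y • p u + (lF y - m) • n := by
  obtain ⟨B, hB0, hB⟩ := exists_basis hFd hF lF m hm n hn
  have key : ∀ y : E d, ∑ u : F, B.repr (y, 1) (some u) = 1 ∧
      y = ∑ u : F, B.repr (y, 1) (some u) • p u + (lF y - m) • n := by
    intro y
    have h := B.sum_repr (y, (1 : ℝ))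
    rw [Fintype.sum_option, hB0] at h
    have e : ∀ u : F, B.repr (y, 1) (some u) • B (some u) =
        (B.repr (y, 1) (some u) • p u, B.repr (y, 1) (some u)) := by
      intro u
      rw [hB u]
      ext <;> simp
    rw [Finset.sum_congr rfl fun u _ => e u] at h
    have h1 := congrArg Prod.fst h
    have h2 := congrArg Prod.snd h
    simp only [Prod.fst_add, Prod.snd_add, Prod.smul_fst, Prod.smul_snd, Prod.fst_sum, Prod.snd_sum,
      smul_zero, zero_add] at h1 h2
    have h3 : B.repr (y, 1) none = lF y - m := by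
      have := congrArg lF h1
      rw [map_add, map_smul, map_sum, hn] at this
      have e : ∑ u : F, lF (B.repr (y, 1) (some u) • p u) = ∑ u : F, B.repr (y, 1) (some u) * m := by
        refine Finset.sum_congr rfl fun u _ => ?_
        rw [map_smul, hm u u.2, smul_eq_mul]
      rw [e, ← Finset.sum_mul, h2, one_mul, smul_eq_mul, mul_one] at this
      linarith
    refine ⟨h2, ?_⟩
    rw [← h3]
    conv_lhs => rw [← h1]
    rw [add_comm]
  refine ⟨fun u y => if h : u ∈ F then B.repr (y, 1) (some ⟨u, h⟩) else 0, fun y => ?_, fun y => ?_⟩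
  · rw [← Finset.sum_coe_sort F]
    refine Eq.trans (Finset.sum_congr rfl fun u _ => ?_) (key y).1
    exact dif_pos u.2
  · rw [← Finset.sum_coe_sort F]
    refine ((key y).2).trans ?_
    congr 1
    refine Finset.sum_congr rfl fun u _ => ?_
    dsimp only
    rw [dif_pos u.2]

include hFd hF hm hn in
theorem func (h : ι → ℝ) (H : ℝ) : ∃ (l : E d →L[ℝ] ℝ) (c : ℝ),
    (∀ u ∈ F, l (p u) = h u + c) ∧ l n = H := by
  obtain ⟨B, hB0, hB⟩ := exists_basis hFd hF lF m hm n hn
  let φ : E d × ℝ →ₗ[ℝ] ℝ := B.constr ℝ (fun o => o.elim H (fun u => h u))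
  have h1 : φ (n, 0) = H := by
    rw [← hB0]
    exact B.constr_basis ℝ _ none
  have h2 : ∀ u : F, φ (p u, 1) = h u := by
    intro u
    rw [← hB u]
    exact B.constr_basis ℝ _ (some u)
  refine ⟨LinearMap.toContinuousLinearMap (φ.comp (LinearMap.inl ℝ (E d) ℝ)), -φ (0, 1), ?_, ?_⟩
  · intro u hu
    show φ (p u, 0) = h u + -φ (0, 1)
    have : ((p u, 0) : E d × ℝ) = (p u, 1) - (0, 1) := by ext <;> simp
    rw [this, map_sub, h2 ⟨u, hu⟩]
    ring
  · exact h1

end basis

theorem stmStack : StmStack := by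
  intro ι _ d p L F x hd hx hF0 hFL hFd hFi _
  have hdpos : (0 : ℝ) < d := by exact_mod_cast (by omega : 0 < d)
  have hFne : F.Nonempty := by
    rw [← Finset.card_pos, hFd]; omega
  have hFsub : F ⊆ L := by
    obtain ⟨l, hl⟩ := hF0
    intro i hi
    exact ((hl i).1 hi).1
  have hLne : L.Nonempty := hFne.mono hFsub
  obtain ⟨lF, m, hF1, hF2, _⟩ := face_max hLne hF0
  have hm : ∀ u ∈ F, lF (p u) = m := fun u hu => ((hF2 u).1 hu).2
  obtain ⟨w0, hw0L, hw0F⟩ : ∃ w ∈ L, w ∉ F := by
    by_contra h
    push Not at h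
    exact hFL (Finset.Subset.antisymm hFsub h)
  have hlt : ∀ w ∈ L, w ∉ F → lF (p w) < m := by
    intro w hw hwF
    refine lt_of_le_of_ne (hF1 w hw) fun h => hwF ((hF2 w).2 ⟨hw, h⟩)
  obtain ⟨u0, hu0⟩ := hFne
  obtain ⟨n, hn⟩ : ∃ n : E d, lF n = 1 := by
    refine ⟨(m - lF (p w0))⁻¹ • (p u0 - p w0), ?_⟩
    have h1 := hlt w0 hw0L hw0F
    rw [map_smul, map_sub, hm u0 hu0, smul_eq_mul, inv_mul_cancel₀ (by linarith)]
  obtain ⟨lam, hl1, hl2⟩ := coords hFd hFi lF m hm n hn
  set b : E d := (d : ℝ)⁻¹ • ∑ u ∈ F, p u with hb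
  -- a functional is determined by the values on `F` and at `n`
  have hev : ∀ (l : E d →L[ℝ] ℝ) (y : E d),
      l y = ∑ u ∈ F, lam u y * l (p u) + (lF y - m) * l n := by
    intro l y
    conv_lhs => rw [hl2 y]
    rw [map_add, map_smul, map_sum, smul_eq_mul]
    congr 1
    refine Finset.sum_congr rfl fun u _ => ?_
    rw [map_smul, smul_eq_mul]
  have hconst : ∀ (l : E d →L[ℝ] ℝ) (m' : ℝ), (∀ u ∈ F, l (p u) = m') → l n = 0 →
      ∀ y, l y = m' := by
    intro l m' h1 h2 y
    rw [hev l y, h2, mul_zero, add_zero, Finset.sum_congr rfl fun u hu => by rw [h1 u hu],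
      ← Finset.sum_mul, hl1, one_mul]
  have hlb : ∀ l : E d →L[ℝ] ℝ, l b = (d : ℝ)⁻¹ * ∑ u ∈ F, l (p u) := by
    intro l
    rw [hb, map_smul, map_sum, smul_eq_mul]
  have hlbc : ∀ (l : E d →L[ℝ] ℝ) (m' : ℝ), (∀ u ∈ F, l (p u) = m') → l b = m' := by
    intro l m' h
    rw [hlb, Finset.sum_congr rfl h, Finset.sum_const, hFd, nsmul_eq_mul]
    field_simp
  -- the choice of `ε`
  have E1 : ∀ᶠ ε in 𝓝[>] (0 : ℝ), ∀ w ∈ L, ∀ u ∈ F, w ∉ F →
      0 < (m - lF (p w)) / d + ε * lam u (p w) := by
    rw [Filter.eventually_all_finset]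
    intro w hw
    rw [Filter.eventually_all_finset]
    intro u hu
    by_cases h : w ∈ F
    · exact Filter.Eventually.of_forall fun _ h' => absurd h h'
    · exact (small _ (lam u (p w)) (div_pos (sub_pos.2 (hlt w hw h)) hdpos)).mono fun _ h' _ => h'
  have E2 : ∀ᶠ ε in 𝓝[>] (0 : ℝ), ∀ A ∈ L.powerset, (Face p L A ∧ A ≠ L ∧ A ≠ F) →
      ∃ (l : E d →L[ℝ] ℝ) (m' : ℝ), (∀ j ∈ L, l (p j) ≤ m') ∧ (∀ i, i ∈ A ↔ (i ∈ L ∧ l (p i) = m')) ∧
        A.Nonempty ∧ l (b + ε • n) < m' := by
    rw [Filter.eventually_all_finset]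
    intro A hA
    by_cases h : Face p L A ∧ A ≠ L ∧ A ≠ F
    · obtain ⟨h1, h2, h3⟩ := h
      obtain ⟨l, m', h4, h5, h6⟩ := face_max hLne h1
      have h7 : l b < m' := by
        have h8 : ∃ u ∈ F, l (p u) ≠ m' := by
          by_contra h8
          push Not at h8
          have h9 : F ⊆ A := fun u hu => (h5 u).2 ⟨hFsub hu, h8 u hu⟩
          obtain ⟨w, hwA, hwF⟩ : ∃ w ∈ A, w ∉ F := by
            by_contra h
            push Not at h
            exact h3 (Finset.Subset.antisymm h h9)
          obtain ⟨hwL, hwm⟩ := (h5 w).1 hwA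
          have h10 := hev l (p w)
          rw [hwm, Finset.sum_congr rfl fun u hu => by rw [h8 u hu], ← Finset.sum_mul, hl1, one_mul] at h10
          have h11 : l n = 0 := by
            have h12 : (lF (p w) - m) * l n = 0 := by linarith
            rcases mul_eq_zero.1 h12 with h13 | h13
            · have := hlt w hwL hwF
              linarith
            · exact h13
          apply h2
          apply Finset.Subset.antisymm (Finset.mem_powerset.1 hA)
          intro i hi
          exact (h5 i).2 ⟨hi, hconst l m' h8 h11 (p i)⟩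
        obtain ⟨u, hu, hne⟩ := h8
        rw [hlb, inv_mul_lt_iff₀ hdpos]
        calc ∑ u ∈ F, l (p u) < ∑ _u ∈ F, m' :=
              Finset.sum_lt_sum (fun i hi => h4 i (hFsub hi))
                ⟨u, hu, lt_of_le_of_ne (h4 u (hFsub hu)) hne⟩
          _ = (d : ℝ) * m' := by rw [Finset.sum_const, hFd, nsmul_eq_mul]
      refine (small (m' - l b) (-(l n)) (by linarith)).mono fun ε hε _ => ⟨l, m', h4, h5, h6, ?_⟩
      rw [map_add, map_smul l ε n, smul_eq_mul]
      linarith
    · exact Filter.Eventually.of_forall fun _ h' => absurd h' h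
  obtain ⟨ε, ⟨hε1, hε2⟩, hε0⟩ := ((E1.and E2).and self_mem_nhdsWithin).exists
  have hε : 0 < ε := hε0
  set z : E d := b + ε • n with hz
  refine ⟨z, fun A => ?_⟩
  have hlz : ∀ l : E d →L[ℝ] ℝ, l z = l b + ε * l n := by
    intro l
    rw [hz, map_add, map_smul l ε n, smul_eq_mul]
  have R : ∀ (l : E d →L[ℝ] ℝ) (w : ι), (m - lF (p w)) * l z + ε * l (p w) =
      ∑ u ∈ F, ((m - lF (p w)) / d + ε * lam u (p w)) * l (p u) := by
    intro l w
    rw [hlz, hlb, hev l (p w)]
    have : ∀ u, ((m - lF (p w)) / d + ε * lam u (p w)) * l (p u) =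
        (m - lF (p w)) * (d : ℝ)⁻¹ * l (p u) + ε * (lam u (p w) * l (p u)) := by
      intro u
      rw [div_eq_mul_inv]; ring
    rw [Finset.sum_congr rfl fun u _ => this u, Finset.sum_add_distrib, ← Finset.mul_sum,
      ← Finset.mul_sum]
    ring
  have Rs : ∀ w, ∑ u ∈ F, ((m - lF (p w)) / d + ε * lam u (p w)) = (m - lF (p w)) + ε := by
    intro w
    rw [Finset.sum_add_distrib, Finset.sum_const, hFd, nsmul_eq_mul, ← Finset.mul_sum, hl1]
    field_simp
  set q := Function.update p x z with hq
  have q1 : q x = z := by rw [hq, Function.update_self]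
  have q2 : ∀ i ∈ L, q i = p i := by
    intro i hi
    rw [hq, Function.update_of_ne]
    rintro rfl
    exact hx hi
  constructor
  · rintro ⟨hA, hAne⟩
    obtain ⟨l, m', h1, h2, h3⟩ := face_max (Finset.insert_nonempty x L) hA
    have h1L : ∀ j ∈ L, l (p j) ≤ m' := by
      intro j hj
      rw [← q2 j hj]
      exact h1 j (Finset.mem_insert_of_mem hj)
    have hzle : l z ≤ m' := by
      rw [← q1]
      exact h1 x (Finset.mem_insert_self x L)
    -- a constant functional gives everything
    have hall : (∀ y, l y = m') → False := by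
      intro h
      apply hAne
      ext i
      rw [h2 i]
      exact ⟨fun a => a.1, fun a => ⟨a, h _⟩⟩
    have hall2 : (∀ u ∈ F, l (p u) = m') → l z = m' → False := by
      intro h4 h5
      apply hall
      apply hconst l m' h4
      rw [hlz, hlbc l m' h4] at h5
      have h6 : ε * l n = 0 := by linarith
      rcases mul_eq_zero.1 h6 with h7 | h7
      · linarith
      · exact h7
    by_cases hxA : x ∈ A
    · right
      have hzm : l z = m' := by
        rw [← q1]
        exact ((h2 x).1 hxA).2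
      have hsub : A.erase x ⊆ F := by
        intro i hi
        rw [Finset.mem_erase] at hi
        obtain ⟨h4, h5⟩ := (h2 i).1 hi.2
        have hiL : i ∈ L := (Finset.mem_insert.1 h4).resolve_left hi.1
        rw [q2 i hiL] at h5
        by_contra hiF
        refine hall2 (fun u hu => ?_) hzm
        by_contra hne
        have h6 := R l i
        rw [hzm, h5] at h6
        have h7 : ∑ u ∈ F, ((m - lF (p i)) / d + ε * lam u (p i)) * l (p u) <
            ∑ u ∈ F, ((m - lF (p i)) / d + ε * lam u (p i)) * m' := by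
          apply Finset.sum_lt_sum
          · intro v hv
            exact mul_le_mul_of_nonneg_left (h1L v (hFsub hv)) (hε1 i hiL v hv hiF).le
          · exact ⟨u, hu, mul_lt_mul_of_pos_left (lt_of_le_of_ne (h1L u (hFsub hu)) hne)
              (hε1 i hiL u hu hiF)⟩
        rw [← Finset.sum_mul, Rs, ← h6] at h7
        linarith
      refine ⟨A.erase x, ?_, (Finset.insert_erase hxA).symm⟩
      rw [Finset.ssubset_iff_subset_ne]
      refine ⟨hsub, fun heq => ?_⟩
      refine hall2 (fun u hu => ?_) hzm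
      rw [← heq, Finset.mem_erase] at hu
      have h4 := ((h2 u).1 hu.2)
      rw [q2 u ((Finset.mem_insert.1 h4.1).resolve_left hu.1)] at h4
      exact h4.2
    · left
      have hzlt : l z < m' := by
        refine lt_of_le_of_ne hzle fun h => hxA ((h2 x).2 ⟨Finset.mem_insert_self x L, ?_⟩)
        rw [q1]; exact h
      have h2L : ∀ i, i ∈ A ↔ (i ∈ L ∧ l (p i) = m') := by
        intro i
        rw [h2 i]
        constructor
        · rintro ⟨h4, h5⟩
          have hne : i ≠ x := by
            rintro rfl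
            exact hxA ((h2 i).2 ⟨h4, h5⟩)
          have hiL := (Finset.mem_insert.1 h4).resolve_left hne
          rw [q2 i hiL] at h5
          exact ⟨hiL, h5⟩
        · rintro ⟨h4, h5⟩
          refine ⟨Finset.mem_insert_of_mem h4, ?_⟩
          rw [q2 i h4]; exact h5
      refine ⟨face_of l m' h1L h2L h3, ?_, ?_⟩
      · rintro rfl
        have h4 : ∀ u ∈ F, l (p u) = m' := fun u hu => ((h2L u).1 (hFsub hu)).2
        have h5 := hev l (p w0)
        rw [((h2L w0).1 hw0L).2, Finset.sum_congr rfl fun u hu => by rw [h4 u hu], ← Finset.sum_mul,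
          hl1, one_mul] at h5
        have h6 : (lF (p w0) - m) * l n = 0 := by linarith
        rcases mul_eq_zero.1 h6 with h7 | h7
        · have := hlt w0 hw0L hw0F
          linarith
        · exact hall (hconst l m' h4 h7)
      · rintro rfl
        have h4 : ∀ u ∈ A, l (p u) = m' := fun u hu => ((h2L u).1 hu).2
        have h5 := R l w0
        rw [Finset.sum_congr rfl fun u hu => by rw [h4 u hu], ← Finset.sum_mul, Rs] at h5
        have h6 := hlt w0 hw0L hw0F
        have h7 := h1L w0 hw0L
        nlinarith [mul_pos (sub_pos.2 h6) (sub_pos.2 hzlt), mul_nonneg hε.le (sub_nonneg.2 h7)]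
  · rintro (⟨h1, h2, h3⟩ | ⟨B, hB, rfl⟩)
    · have hAL : A ∈ L.powerset := by
        rw [Finset.mem_powerset]
        obtain ⟨l, hl⟩ := h1
        intro i hi
        exact ((hl i).1 hi).1
      obtain ⟨l, m', h4, h5, h6, h7⟩ := hε2 A hAL ⟨h1, h2, h3⟩
      have hxA : x ∉ A := fun h => hx (Finset.mem_powerset.1 hAL h)
      refine ⟨face_of l m' ?_ ?_ h6, fun h => hxA (h ▸ Finset.mem_insert_self x L)⟩
      · intro j hj
        rcases Finset.mem_insert.1 hj with rfl | hj'
        · rw [q1]; exact h7.le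
        · rw [q2 j hj']; exact h4 j hj'
      · intro i
        rw [h5 i]
        constructor
        · rintro ⟨h8, h9⟩
          exact ⟨Finset.mem_insert_of_mem h8, by rw [q2 i h8]; exact h9⟩
        · rintro ⟨h8, h9⟩
          rcases Finset.mem_insert.1 h8 with rfl | h8'
          · rw [q1] at h9
            exact absurd h9 h7.ne
          · rw [q2 i h8'] at h9
            exact ⟨h8', h9⟩
    · have hBF : B ⊆ F := hB.subset
      obtain ⟨u1, hu1F, hu1B⟩ := Finset.exists_of_ssubset hB
      obtain ⟨l, c, h1, h2⟩ := func hFd hFi lF m hm n hn (fun u => if u ∈ B then 0 else -1)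
        ((∑ u ∈ F, if u ∈ B then (0 : ℝ) else 1) / (d * ε))
      have h3 : l z = c := by
        rw [hlz, hlb, h2, Finset.sum_congr rfl h1, Finset.sum_add_distrib, Finset.sum_const, hFd,
          nsmul_eq_mul]
        have e : ∑ u ∈ F, (if u ∈ B then (0 : ℝ) else -1) = -∑ u ∈ F, (if u ∈ B then (0 : ℝ) else 1) := by
          rw [← Finset.sum_neg_distrib]
          refine Finset.sum_congr rfl fun u _ => ?_
          split_ifs <;> simp
        rw [e]
        field_simp
        ring
      have h4 : ∀ w ∈ L, w ∉ F → l (p w) < c := by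
        intro w hw hwF
        have h5 := R l w
        rw [h3] at h5
        have h6 : ∑ u ∈ F, ((m - lF (p w)) / d + ε * lam u (p w)) * l (p u) <
            ∑ u ∈ F, ((m - lF (p w)) / d + ε * lam u (p w)) * c := by
          apply Finset.sum_lt_sum
          · intro v hv
            apply mul_le_mul_of_nonneg_left _ (hε1 w hw v hv hwF).le
            rw [h1 v hv]
            split_ifs <;> linarith
          · refine ⟨u1, hu1F, mul_lt_mul_of_pos_left ?_ (hε1 w hw u1 hu1F hwF)⟩
            rw [h1 u1 hu1F, if_neg hu1B]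
            linarith
        rw [← Finset.sum_mul, Rs, ← h5] at h6
        have h7 : ε * l (p w) < ε * c := by linarith
        exact lt_of_mul_lt_mul_left h7 hε.le
      refine ⟨face_of l c ?_ ?_ ⟨x, Finset.mem_insert_self x B⟩, ?_⟩
      · intro j hj
        rcases Finset.mem_insert.1 hj with rfl | hj'
        · rw [q1, h3]
        · rw [q2 j hj']
          by_cases hjF : j ∈ F
          · rw [h1 j hjF]
            split_ifs <;> linarith
          · exact (h4 j hj' hjF).le
      · intro i
        rw [Finset.mem_insert]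
        constructor
        · rintro (rfl | hi)
          · exact ⟨Finset.mem_insert_self _ _, by rw [q1, h3]⟩
          · have hiL := hFsub (hBF hi)
            refine ⟨Finset.mem_insert_of_mem hiL, ?_⟩
            rw [q2 i hiL, h1 i (hBF hi), if_pos hi, zero_add]
        · rintro ⟨h8, h9⟩
          rcases Finset.mem_insert.1 h8 with rfl | h8'
          · left; rfl
          · right
            rw [q2 i h8'] at h9
            by_cases hiF : i ∈ F
            · by_contra hiB
              rw [h1 i hiF, if_neg hiB] at h9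
              linarith
            · exact absurd h9 (h4 i h8' hiF).ne
      · intro h
        have h5 : u1 ∈ insert x B := by
          rw [h]
          exact Finset.mem_insert_of_mem (hFsub hu1F)
        rcases Finset.mem_insert.1 h5 with h6 | h6
        · exact hx (h6 ▸ hFsub hu1F)
        · exact hu1B h6

end Pool.Agent.V8H63.GJ
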